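import Pool.Agent.Helper94.UW.ToMeas
import Pool.Agent.Helper93.UX.Defs

/-!
# UX-Q0': from the weight to the measure in `[T, 2T]`
-/

set_option autoImplicit false
open MeasureTheory Set Filter Topology
open Pool.Agent.Helper57.Zeta Pool.Agent.Helper57.LH Pool.Agent.Helper57.ED Pool.Agent.Helper54.LG
open Pool.Agent.Helper69.UG (NR WW)
open Pool.Agent.Helper69.UW
open Pool.Agent.Helper93.UG (mu_shift vol_ge)
open Pool.Agent.Helper94.UW (one_le_VV RR_cont wt_int)

namespace Pool.Agent.Helper93.UX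

/-- the measure of a set from its weight. -/
lemma mu_ge' {δ T c m v τ Λ κ : ℝ} (hT : 1 ≤ T) (hΛ : 0 < Λ) {S : Set ℝ} (hS : MeasurableSet S)
    (h4 : ∫ t in {t : ℝ | Λ * VV δ T c m v < ‖RR δ T c m v t‖ ^ 2}, wt δ T c m v τ t ≤ κ / 2 * VV δ T c m v)
    (h : κ * VV δ T c m v ≤ ∫ t in S, wt δ T c m v τ t) :
    κ / (2 * Λ) ≤ (mu (WW T) τ S).toReal := by
  have hV := one_le_VV (δ := δ) (c := c) (m := m) hT v
  have hV0 : 0 < VV δ T c m v := by linarith
  have hW : 0 < WW T := by unfold WW; positivity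
  have hPi : Integrable (fun t => PW (WW T) (t - τ)) := (integral_PW hW).1.comp_sub_right τ
  have hwi : Integrable (wt δ T c m v τ) := wt_int (by linarith)
  have hmu : (mu (WW T) τ S).toReal = ∫ t in S, PW (WW T) (t - τ) := by
    unfold mu
    rw [withDensity_apply _ hS, ← ofReal_integral_eq_lintegral_ofReal hPi.integrableOn
      (Eventually.of_forall fun t => (PW_pos hW _).le)]
    rw [ENNReal.toReal_ofReal]
    exact setIntegral_nonneg hS fun t _ => (PW_pos hW _).le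
  set E : Set ℝ := {t : ℝ | Λ * VV δ T c m v < ‖RR δ T c m v t‖ ^ 2} with hE
  have hEm : MeasurableSet E := by
    have hcont : Continuous fun t => ‖RR δ T c m v t‖ ^ 2 := (RR_cont δ T c m v).norm.pow 2
    exact (isOpen_lt continuous_const hcont).measurableSet
  have hw0 : ∀ t, 0 ≤ wt δ T c m v τ t := fun t => by
    unfold wt
    exact mul_nonneg (PW_pos hW _).le (by positivity)
  have h5 : ∫ t in S, wt δ T c m v τ t = (∫ t in S ∩ E, wt δ T c m v τ t) + ∫ t in S \ E, wt δ T c m v τ t :=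
    (integral_inter_add_sdiff hEm hwi.integrableOn).symm
  have h6 : ∫ t in S ∩ E, wt δ T c m v τ t ≤ κ / 2 * VV δ T c m v := by
    refine le_trans ?_ h4
    exact setIntegral_mono_set hwi.integrableOn (Eventually.of_forall fun t => hw0 t)
      (LE.le.eventuallyLE inter_subset_right)
  have h7 : ∫ t in S \ E, wt δ T c m v τ t ≤ Λ * VV δ T c m v * (mu (WW T) τ S).toReal := by
    rw [hmu, ← integral_const_mul]
    have hi : Integrable (fun t => Λ * VV δ T c m v * PW (WW T) (t - τ)) := hPi.const_mul _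
    refine (setIntegral_mono_on hwi.integrableOn hi.integrableOn (hS.diff hEm) fun t ht => ?_).trans
      (setIntegral_mono_set hi.integrableOn (Eventually.of_forall fun t => ?_) (LE.le.eventuallyLE sdiff_subset))
    · have h8 : ‖RR δ T c m v t‖ ^ 2 ≤ Λ * VV δ T c m v := by
        have := ht.2
        rw [hE, mem_ofPred_eq, not_lt] at this
        exact this
      unfold wt
      rw [mul_comm]
      exact mul_le_mul_of_nonneg_right h8 (PW_pos hW _).le
    · have := PW_pos hW (t - τ)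
      show 0 ≤ Λ * VV δ T c m v * PW (WW T) (t - τ)
      positivity
  have h9 : κ / 2 * VV δ T c m v ≤ Λ * VV δ T c m v * (mu (WW T) τ S).toReal := by linarith
  rw [div_le_iff₀ (by positivity)]
  have h12 : VV δ T c m v * κ ≤ VV δ T c m v * ((mu (WW T) τ S).toReal * (2 * Λ)) := by linarith
  exact le_of_mul_le_mul_left h12 hV0

/-- Q0', from T4'. -/
theorem to_meas_of {δ : ℝ} (hδ : 0 < δ) (hδ1 : δ ≤ 1 / 32)
    (hT4 : ∀ κ : ℝ, 0 < κ → ∃ K c0 T0 : ℝ, 0 < K ∧ ∀ T c m v : ℝ, T0 ≤ T →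
      Adm c0 T c m → |v| ≤ vv δ c m → K * Real.log c ≤ (v * ll c m) ^ 2 → ∀ τ : ℝ,
      ∫ t in {t : ℝ | Real.exp ((1 + 12 * δ) * (v ^ 2 * ll c m / 2)) * VV δ T c m v < ‖RR δ T c m v t‖ ^ 2},
        wt δ T c m v τ t ≤ κ * VV δ T c m v) :
    ∀ κ : ℝ, 0 < κ → ∃ K c0 T0 : ℝ, 0 < K ∧ ∀ T c m v : ℝ, T0 ≤ T →
    Adm c0 T c m → |v| ≤ vv δ c m → K * Real.log c ≤ (v * ll c m) ^ 2 → ∀ G : Set ℝ, MeasurableSet G →
    (∀ τ, 5 / 4 * T ≤ τ → τ ≤ 7 / 4 * T → κ * VV δ T c m v ≤ ∫ t in G, wt δ T c m v τ t) →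
    ENNReal.ofReal (Real.exp (-((1 + 15 * δ) * (v ^ 2 * ll c m / 2))) * T) ≤ volume (G ∩ Icc T (2 * T)) := by
  intro κ hκ
  obtain ⟨K1, c1, T1, hK1, h4⟩ := hT4 (κ / 2) (by positivity)
  obtain ⟨T2, hT2, hcle⟩ := Adm.c_le (4096 * 40)
  set L8 := |Real.log (8 / κ)| with hL8
  set L16 := |Real.log (16 / κ)| with hL16
  have hL80 : 0 ≤ L8 := abs_nonneg _
  have hL160 : 0 ≤ L16 := abs_nonneg _
  refine ⟨K1 + L8 / δ, max c1 (max 3 L16), max T1 (max T2 1), by positivity,
    fun T c m v hT hA hv hKc G hG hyp => ?_⟩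
  have t1 : T1 ≤ T := (le_max_left _ _).trans hT
  have t2 : T2 ≤ T := (le_max_left _ _).trans ((le_max_right _ _).trans hT)
  have hT1 : 1 ≤ T := (le_max_right _ _).trans ((le_max_right _ _).trans hT)
  have hT0 : 0 < T := by linarith
  have hA1 : Adm c1 T c m := hA.mono (le_max_left _ _)
  have hA3 : Adm 3 T c m := hA.mono ((le_max_left _ _).trans (le_max_right _ _))
  have hA16 : Adm L16 T c m := hA.mono ((le_max_right _ _).trans (le_max_right _ _))
  have hc3 : 3 ≤ c := hA.1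
  have hc0 : 0 < c := by linarith
  have hm1 : 1 ≤ m := hA.2.1
  have hm0 : 0 < m := by linarith
  have hlc := hA.one_le_log
  have hll1 : 1 ≤ ll c m := by
    refine le_trans ?_ (hA3.log_le_ll (by norm_num))
    have h3 : Real.exp 1 ≤ 3 := by linarith [Real.exp_one_lt_d9]
    have := Real.log_le_log (Real.exp_pos 1) h3
    rwa [Real.log_exp] at this
  have hll0 : 0 < ll c m := by linarith
  have hllc := hA.ll_le
  have hpi := Real.pi_pos
  have hpi4 := Real.pi_lt_d2
  have hπ2 : Real.pi ^ 2 ≤ 10 := by nlinarith [Real.pi_gt_three]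
  set D := v ^ 2 * ll c m / 2 with hD
  have hD0 : 0 ≤ D := by positivity
  -- `D ≥ L8/(3 δ)`
  have hDL : L8 ≤ 3 * δ * D := by
    have h1 : (v * ll c m) ^ 2 = 2 * D * ll c m := by
      rw [hD]
      ring
    have h2 : (K1 + L8 / δ) * Real.log c ≤ 2 * D * Real.log c := by
      rw [h1] at hKc
      exact hKc.trans (mul_le_mul_of_nonneg_left hllc (by positivity))
    have h3 : K1 + L8 / δ ≤ 2 * D := le_of_mul_le_mul_right h2 (by linarith)
    have h4 : L8 / δ ≤ 2 * D := by linarith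
    rw [div_le_iff₀ hδ] at h4
    nlinarith
  -- `D ≤ 14 m`
  have hDm : D ≤ 14 * m := by
    have h1 : v ^ 2 ≤ vv δ c m ^ 2 := by
      rw [← sq_abs v]
      exact pow_le_pow_left₀ (abs_nonneg _) hv 2
    have h2 : vv δ c m ^ 2 = (1 + 20 * δ) ^ 2 * Real.pi ^ 2 * m / ll c m ^ 2 := by
      unfold Pool.Agent.Helper69.UW.vv
      rw [div_pow, mul_pow, mul_pow, Real.sq_sqrt hm0.le]
    have h3 : (1 + 20 * δ) ^ 2 ≤ 27 / 10 := by nlinarith
    have h4 : (1 + 20 * δ) ^ 2 * Real.pi ^ 2 ≤ 27 / 10 * 10 :=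
      mul_le_mul h3 hπ2 (by positivity) (by norm_num)
    have h5 : (1 + 20 * δ) ^ 2 * Real.pi ^ 2 * m ≤ 27 / 10 * 10 * m :=
      mul_le_mul_of_nonneg_right h4 hm0.le
    have h6 : v ^ 2 * ll c m ≤ 27 * m := by
      calc v ^ 2 * ll c m ≤ vv δ c m ^ 2 * ll c m := mul_le_mul_of_nonneg_right h1 hll0.le
        _ = (1 + 20 * δ) ^ 2 * Real.pi ^ 2 * m / ll c m := by rw [h2]; field_simp
        _ ≤ 27 / 10 * 10 * m / ll c m := div_le_div_of_nonneg_right h5 hll0.le
        _ ≤ 27 / 10 * 10 * m := div_le_self (by positivity) hll1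
        _ = 27 * m := by ring
    rw [hD]
    linarith
  have hmc : 3 * m ≤ c := hA3.2.2.2.1
  have hcT : 4096 * 40 * c ≤ Real.log T := hcle _ T c m t2 hA
  have hLc : L16 ≤ c := hA16.le_c hL160
  have hW : 0 < WW T := by unfold WW; positivity
  set Λ := Real.exp ((1 + 12 * δ) * D) with hΛ
  have hΛ0 : 0 < Λ := Real.exp_pos _
  -- each centre
  have hmu : ∀ τ, 5 / 4 * T ≤ τ → τ ≤ 7 / 4 * T → ENNReal.ofReal (κ / (2 * Λ)) ≤ mu (WW T) τ G := by
    intro τ hτ1 hτ2
    have hKc1 : K1 * Real.log c ≤ (v * ll c m) ^ 2 := by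
      refine le_trans (mul_le_mul_of_nonneg_right ?_ (by linarith)) hKc
      have : 0 ≤ L8 / δ := by positivity
      linarith
    have i4 := mu_ge' hT1 hΛ0 hG (h4 T c m v t1 hA1 hv hKc1 τ) (hyp τ hτ1 hτ2)
    have hfin : mu (WW T) τ G ≠ ⊤ := by
      have := mu_prob hW τ
      exact measure_ne_top _ _
    rw [ENNReal.ofReal_le_iff_le_toReal hfin]
    exact i4
  have hvol := vol_ge hT0 hW hG hmu
  -- numbers
  have hx : Real.exp (-(3 * δ * D)) ≤ κ / 8 := by
    have h5 : κ / 8 = Real.exp (-Real.log (8 / κ)) := by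
      rw [Real.exp_neg, Real.exp_log (by positivity), inv_div]
    rw [h5]
    apply Real.exp_le_exp.mpr
    have := le_abs_self (Real.log (8 / κ))
    linarith
  have hz : 2 * WW T ≤ κ * T / (8 * Λ) := by
    have e5 : WW T = T ^ (-(1 / 4096) : ℝ) * T := by
      unfold WW
      rw [← Real.rpow_add_one hT0.ne']
      congr 1
      norm_num
    have e6 : T ^ (-(1 / 4096) : ℝ) ≤ Real.exp (-(Real.log (16 / κ) + (1 + 12 * δ) * D)) := by
      rw [Real.rpow_def_of_pos hT0]
      apply Real.exp_le_exp.mpr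
      have h1 := le_abs_self (Real.log (16 / κ))
      have h2 : (1 + 12 * δ) * D ≤ 11 / 8 * (14 * m) := by
        have : 1 + 12 * δ ≤ 11 / 8 := by linarith
        exact mul_le_mul this hDm hD0 (by norm_num)
      linarith
    have e7 : Real.exp (-(Real.log (16 / κ) + (1 + 12 * δ) * D)) = κ / (16 * Λ) := by
      rw [Real.exp_neg, Real.exp_add, Real.exp_log (by positivity), ← hΛ]
      field_simp
    rw [e7] at e6
    rw [e5]
    have e8 := mul_le_mul_of_nonneg_right e6 hT0.le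
    have e9 : κ * T / (8 * Λ) = 2 * (κ / (16 * Λ) * T) := by
      field_simp
      ring
    rw [e9]
    linarith
  have hfinal : Real.exp (-((1 + 15 * δ) * D)) * T + 2 * WW T ≤ κ / (2 * Λ) * (T / 2) := by
    have e8 : Real.exp (-((1 + 15 * δ) * D)) = Real.exp (-(3 * δ * D)) / Λ := by
      rw [hΛ, ← Real.exp_sub]; congr 1; ring
    rw [e8]
    have e9 : Real.exp (-(3 * δ * D)) / Λ * T ≤ κ / 8 / Λ * T := by gcongr
    have e10 : κ / 8 / Λ * T = κ * T / (8 * Λ) := by field_simp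
    have e11 : κ / (2 * Λ) * (T / 2) = 2 * (κ * T / (8 * Λ)) := by
      field_simp
      ring
    rw [e11]
    linarith
  have h10 : ENNReal.ofReal (Real.exp (-((1 + 15 * δ) * D)) * T) + ENNReal.ofReal (2 * WW T) ≤
      volume (G ∩ Icc T (2 * T)) + ENNReal.ofReal (2 * WW T) := by
    rw [← ENNReal.ofReal_add (by positivity) (by positivity)]
    exact (ENNReal.ofReal_le_ofReal hfinal).trans hvol
  exact (ENNReal.add_le_add_iff_right ENNReal.ofReal_ne_top).mp h10

end Pool.Agent.Helper93.UX
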